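import Mathlib

/-!
# Transposed Poisson structures, 1/2-derivations and one-dimensional central extensions
-/

set_option autoImplicit false

namespace Pool.Agent.R691.HalfDer

section Definitions

variable {L : Type} [LieRing L] [LieAlgebra ℂ L]

/-- `μ` (written `x · y = μ x y`) is a transposed Poisson structure on the Lie algebra `L`: a
bilinear commutative associative product with `2 z · [x, y] = [z · x, y] + [x, z · y]`. -/
structure IsTransposedPoisson (μ : L →ₗ[ℂ] L →ₗ[ℂ] L) : Prop where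
  comm : ∀ x y : L, μ x y = μ y x
  assoc : ∀ x y z : L, μ (μ x y) z = μ x (μ y z)
  compat : ∀ x y z : L, (2 : ℂ) • μ z ⁅x, y⁆ = ⁅μ z x, y⁆ + ⁅x, μ z y⁆

/-- `φ` is a `1/2`-derivation of the Lie algebra `L`. -/
def IsHalfDerivation (φ : L →ₗ[ℂ] L) : Prop :=
  ∀ x y : L, φ ⁅x, y⁆ = (1 / 2 : ℂ) • (⁅φ x, y⁆ + ⁅x, φ y⁆)

/-- The linear map `φ` is trivial: a multiple of the identity. -/
def IsScalar (φ : L →ₗ[ℂ] L) : Prop := ∃ c : ℂ, ∀ x : L, φ x = c • x

/-- The Lie algebra `E` is the one-dimensional central extension `L_ω = L ⊕ ℂ c` of `L`, with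
bracket `[x + a c, y + b c] = [x, y] + ω(x, y) c` (up to an isomorphism; the Lie algebra axioms for
`E` mean that `ω` is a 2-cocycle). -/
def IsCentralExtension (L E : Type) [LieRing L] [LieAlgebra ℂ L] [LieRing E] [LieAlgebra ℂ E]
    (ω : L →ₗ[ℂ] L →ₗ[ℂ] ℂ) : Prop :=
  ∃ e : E ≃ₗ[ℂ] L × ℂ, ∀ x y : E, e ⁅x, y⁆ = (⁅(e x).1, (e y).1⁆, ω (e x).1 (e y).1)

/-- `ω` is a coboundary: `ω(x, y) = f([x, y])` for a linear form `f`. -/
def IsCoboundary (ω : L →ₗ[ℂ] L →ₗ[ℂ] ℂ) : Prop :=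
  ∃ f : L →ₗ[ℂ] ℂ, ∀ x y : L, ω x y = f ⁅x, y⁆

end Definitions

/-! ### The example -/

/-- `gl₂(ℂ) ⋉ (ℂ² ⊕ (ℂ²)*)`: triples `(A, v, w)`, `v` a column vector, `w` a row vector -/
def L8 : Type := Matrix (Fin 2) (Fin 2) ℂ × (Fin 2 → ℂ) × (Fin 2 → ℂ)

noncomputable instance : AddCommGroup L8 :=
  inferInstanceAs (AddCommGroup (Matrix (Fin 2) (Fin 2) ℂ × (Fin 2 → ℂ) × (Fin 2 → ℂ)))

noncomputable instance : Module ℂ L8 :=
  inferInstanceAs (Module ℂ (Matrix (Fin 2) (Fin 2) ℂ × (Fin 2 → ℂ) × (Fin 2 → ℂ)))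

/-- the bracket `[(A, v, w), (B, v', w')] = ([A, B], A v' - B v, w B - w' A)` -/
noncomputable instance : Bracket L8 L8 :=
  ⟨fun x y => (x.1 * y.1 - y.1 * x.1, x.1.mulVec y.2.1 - y.1.mulVec x.2.1,
    Matrix.vecMul x.2.2 y.1 - Matrix.vecMul y.2.2 x.1)⟩

theorem L8.ext' {x y : L8} (h1 : x.1 = y.1) (h2 : x.2.1 = y.2.1) (h3 : x.2.2 = y.2.2) : x = y :=
  Prod.ext h1 (Prod.ext h2 h3)

theorem br1 (x y : L8) : (⁅x, y⁆ : L8).1 = x.1 * y.1 - y.1 * x.1 := rfl
theorem br2 (x y : L8) : (⁅x, y⁆ : L8).2.1 = x.1.mulVec y.2.1 - y.1.mulVec x.2.1 := rfl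
theorem br3 (x y : L8) : (⁅x, y⁆ : L8).2.2 = Matrix.vecMul x.2.2 y.1 - Matrix.vecMul y.2.2 x.1 := rfl
theorem add1 (x y : L8) : (x + y).1 = x.1 + y.1 := rfl
theorem add2 (x y : L8) : (x + y).2.1 = x.2.1 + y.2.1 := rfl
theorem add3 (x y : L8) : (x + y).2.2 = x.2.2 + y.2.2 := rfl
theorem smul1 (c : ℂ) (x : L8) : (c • x).1 = c • x.1 := rfl
theorem smul2 (c : ℂ) (x : L8) : (c • x).2.1 = c • x.2.1 := rfl
theorem smul3 (c : ℂ) (x : L8) : (c • x).2.2 = c • x.2.2 := rfl
theorem zero1 : (0 : L8).1 = 0 := rfl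
theorem zero2 : (0 : L8).2.1 = 0 := rfl
theorem zero3 : (0 : L8).2.2 = 0 := rfl

noncomputable instance : LieRing L8 where
  add_lie x y z := by
    refine L8.ext' ?_ ?_ ?_
    · simp only [br1, add1]; noncomm_ring
    · simp only [br2, add2, add1, Matrix.add_mulVec, Matrix.mulVec_add]; abel
    · simp only [br3, add3, add1, Matrix.add_vecMul, Matrix.vecMul_add]; abel
  lie_add x y z := by
    refine L8.ext' ?_ ?_ ?_
    · simp only [br1, add1]; noncomm_ring
    · simp only [br2, add2, add1, Matrix.add_mulVec, Matrix.mulVec_add]; abel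
    · simp only [br3, add3, add1, Matrix.add_vecMul, Matrix.vecMul_add]; abel
  lie_self x := by
    refine L8.ext' ?_ ?_ ?_
    · simp only [br1, sub_self]; rfl
    · simp only [br2, sub_self]; rfl
    · simp only [br3, sub_self]; rfl
  leibniz_lie x y z := by
    refine L8.ext' ?_ ?_ ?_
    · simp only [br1, add1]; noncomm_ring
    · simp only [br2, br1, add2, Matrix.sub_mulVec, Matrix.mulVec_sub, Matrix.mulVec_mulVec]; abel
    · simp only [br3, br1, add3, Matrix.sub_vecMul, Matrix.vecMul_sub, Matrix.vecMul_vecMul]; abel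

noncomputable instance : LieAlgebra ℂ L8 where
  lie_smul c x y := by
    refine L8.ext' ?_ ?_ ?_
    · simp only [br1, smul1, smul_sub, Matrix.mul_smul, Matrix.smul_mul]
    · simp only [br2, smul1, smul2, smul_sub, Matrix.mulVec_smul, Matrix.smul_mulVec]
    · simp only [br3, smul1, smul3, smul_sub, Matrix.vecMul_smul, Matrix.smul_vecMul]

/-- the inclusion of `gl₂` -/
def mkA (A : Matrix (Fin 2) (Fin 2) ℂ) : L8 := (A, 0, 0)
/-- the inclusion of `ℂ²` -/
def mkV (v : Fin 2 → ℂ) : L8 := (0, v, 0)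
/-- the inclusion of `(ℂ²)*` -/
def mkW (w : Fin 2 → ℂ) : L8 := (0, 0, w)

theorem a1 (A : Matrix (Fin 2) (Fin 2) ℂ) : (mkA A).1 = A := rfl
theorem a2 (A : Matrix (Fin 2) (Fin 2) ℂ) : (mkA A).2.1 = 0 := rfl
theorem a3 (A : Matrix (Fin 2) (Fin 2) ℂ) : (mkA A).2.2 = 0 := rfl
theorem b1 (v : Fin 2 → ℂ) : (mkV v).1 = 0 := rfl
theorem b2 (v : Fin 2 → ℂ) : (mkV v).2.1 = v := rfl
theorem b3 (v : Fin 2 → ℂ) : (mkV v).2.2 = 0 := rfl
theorem c1 (w : Fin 2 → ℂ) : (mkW w).1 = 0 := rfl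
theorem c2 (w : Fin 2 → ℂ) : (mkW w).2.1 = 0 := rfl
theorem c3 (w : Fin 2 → ℂ) : (mkW w).2.2 = w := rfl

theorem eq_add (x : L8) : x = mkA x.1 + mkV x.2.1 + mkW x.2.2 := by
  refine L8.ext' ?_ ?_ ?_
  · simp only [add1, a1, b1, c1, add_zero]
  · simp only [add2, a2, b2, c2, add_zero, zero_add]
  · simp only [add3, a3, b3, c3, zero_add]

theorem lieAA (A B : Matrix (Fin 2) (Fin 2) ℂ) : (⁅mkA A, mkA B⁆ : L8) = mkA (A * B - B * A) := by
  refine L8.ext' ?_ ?_ ?_
  · simp only [br1, a1]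
  · simp only [br2, a1, a2, Matrix.mulVec_zero, sub_self]
  · simp only [br3, a1, a3, Matrix.zero_vecMul, sub_self]

theorem lieAV (A : Matrix (Fin 2) (Fin 2) ℂ) (v : Fin 2 → ℂ) :
    (⁅mkA A, mkV v⁆ : L8) = mkV (A.mulVec v) := by
  refine L8.ext' ?_ ?_ ?_
  · simp only [br1, a1, b1, mul_zero, zero_mul, sub_self]
  · simp only [br2, a1, a2, b1, b2, Matrix.mulVec_zero, sub_zero]
  · simp only [br3, a1, a3, b1, b3, Matrix.zero_vecMul, sub_self]

theorem lieWA (A : Matrix (Fin 2) (Fin 2) ℂ) (w : Fin 2 → ℂ) :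
    (⁅mkW w, mkA A⁆ : L8) = mkW (Matrix.vecMul w A) := by
  refine L8.ext' ?_ ?_ ?_
  · simp only [br1, a1, c1, mul_zero, zero_mul, sub_self]
  · simp only [br2, a1, a2, c1, c2, Matrix.mulVec_zero, sub_zero]
  · simp only [br3, a1, a3, c1, c3, Matrix.zero_vecMul, sub_zero]

theorem lieVW (v w : Fin 2 → ℂ) : (⁅mkV v, mkW w⁆ : L8) = 0 := by
  refine L8.ext' ?_ ?_ ?_
  · simp only [br1, b1, c1, mul_zero, sub_self]; rfl
  · simp only [br2, b1, b2, c1, c2, Matrix.zero_mulVec, sub_self]; rfl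
  · simp only [br3, b1, b3, c1, c3, Matrix.vecMul_zero, sub_self]; rfl

/-- the cocycle `ω((A, v, w), (B, v', w')) = w v' - w' v` -/
noncomputable def om : L8 →ₗ[ℂ] L8 →ₗ[ℂ] ℂ :=
  LinearMap.mk₂ ℂ (fun x y => dotProduct x.2.2 y.2.1 - dotProduct y.2.2 x.2.1)
    (fun x x' y => by simp only [add2, add3, add_dotProduct, dotProduct_add]; ring)
    (fun c x y => by
      simp only [smul2, smul3, smul_dotProduct, dotProduct_smul, smul_eq_mul]; ring)
    (fun x y y' => by simp only [add2, add3, add_dotProduct, dotProduct_add]; ring)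
    (fun c x y => by
      simp only [smul2, smul3, smul_dotProduct, dotProduct_smul, smul_eq_mul]; ring)

theorem om_apply (x y : L8) : om x y = dotProduct x.2.2 y.2.1 - dotProduct y.2.2 x.2.1 := rfl

/-- the central extension `L8 ⊕ ℂ c` -/
def E9 : Type := L8 × ℂ

noncomputable instance : AddCommGroup E9 := inferInstanceAs (AddCommGroup (L8 × ℂ))

noncomputable instance : Module ℂ E9 := inferInstanceAs (Module ℂ (L8 × ℂ))

noncomputable instance : Bracket E9 E9 := ⟨fun x y => (⁅x.1, y.1⁆, om x.1 y.1)⟩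

theorem E9.ext' {x y : E9} (h1 : x.1 = y.1) (h2 : x.2 = y.2) : x = y := Prod.ext h1 h2

theorem ebr1 (x y : E9) : (⁅x, y⁆ : E9).1 = ⁅x.1, y.1⁆ := rfl
theorem ebr2 (x y : E9) : (⁅x, y⁆ : E9).2 = om x.1 y.1 := rfl
theorem eadd1 (x y : E9) : (x + y).1 = x.1 + y.1 := rfl
theorem eadd2 (x y : E9) : (x + y).2 = x.2 + y.2 := rfl
theorem esmul1 (c : ℂ) (x : E9) : (c • x).1 = c • x.1 := rfl
theorem esmul2 (c : ℂ) (x : E9) : (c • x).2 = c * x.2 := rfl

theorem om_self (x : L8) : om x x = 0 := by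
  rw [om_apply, sub_self]

theorem om_jacobi (x y z : L8) : om x ⁅y, z⁆ = om ⁅x, y⁆ z + om y ⁅x, z⁆ := by
  simp only [om_apply, br2, br3, dotProduct_sub, sub_dotProduct, Matrix.dotProduct_mulVec]
  ring

noncomputable instance : LieRing E9 where
  add_lie x y z := E9.ext' (by simp only [ebr1, eadd1, add_lie])
    (by simp only [ebr2, eadd1, eadd2, map_add, LinearMap.add_apply])
  lie_add x y z := E9.ext' (by simp only [ebr1, eadd1, lie_add])
    (by simp only [ebr2, eadd1, eadd2, map_add])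
  lie_self x := E9.ext' (by simp only [ebr1, lie_self]; rfl) (by simp only [ebr2, om_self]; rfl)
  leibniz_lie x y z := E9.ext' (by simp only [ebr1, eadd1, leibniz_lie x.1 y.1 z.1])
    (by simp only [ebr2, ebr1, eadd2]; exact om_jacobi _ _ _)

noncomputable instance : LieAlgebra ℂ E9 where
  lie_smul c x y := E9.ext' (by simp only [ebr1, esmul1, lie_smul])
    (by simp only [ebr2, esmul1, esmul2, map_smul, smul_eq_mul])

theorem isCentralExtension : IsCentralExtension L8 E9 om :=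
  ⟨LinearEquiv.refl ℂ (L8 × ℂ), fun _ _ => rfl⟩

theorem not_coboundary : ¬ IsCoboundary om := by
  rintro ⟨f, hf⟩
  have h := hf (mkV ![1, 0]) (mkW ![1, 0])
  rw [lieVW, map_zero, om_apply, b2, b3, c2, c3] at h
  simp at h

/-- all `1/2`-derivations of `L8` are trivial -/
theorem half_trivial (φ : L8 →ₗ[ℂ] L8) (hφ : IsHalfDerivation φ) : IsScalar φ := by
  set p := (φ (mkA 1)).2.1 with hp
  set q := (φ (mkA 1)).2.2 with hq
  have two : ∀ x y : L8, (2 : ℂ) • φ ⁅x, y⁆ = ⁅φ x, y⁆ + ⁅x, φ y⁆ := by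
    intro x y
    rw [hφ x y, smul_smul]
    norm_num
  have half : ∀ (V : Type) [AddCommGroup V] [Module ℂ V] (z : V), (2 : ℂ) • z = z → z = 0 := by
    intro V _ _ z h
    have h1 : (2 : ℂ) • z - z = 0 := sub_eq_zero.2 h
    rw [two_smul, add_sub_cancel_right] at h1
    exact h1
  -- commuting with the identity matrix
  have hA : ∀ A : Matrix (Fin 2) (Fin 2) ℂ, (φ (mkA A)).2.1 = A.mulVec p ∧
      (φ (mkA A)).2.2 = Matrix.vecMul q A ∧ (φ (mkA 1)).1 * A = A * (φ (mkA 1)).1 := by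
    intro A
    have h := two (mkA 1) (mkA A)
    rw [lieAA, one_mul, mul_one, sub_self] at h
    have h0 : mkA 0 = 0 := rfl
    rw [h0, map_zero, smul_zero] at h
    have h1 := congrArg (fun t : L8 => t.1) h
    have h2 := congrArg (fun t : L8 => t.2.1) h
    have h3 := congrArg (fun t : L8 => t.2.2) h
    simp only [add1, add2, add3, br1, br2, br3, zero1, zero2, zero3, a1, a2, a3,
      Matrix.mulVec_zero, Matrix.one_mulVec, Matrix.zero_vecMul, Matrix.vecMul_one,
      one_mul, mul_one, sub_self, add_zero, zero_sub, sub_zero, ← hp, ← hq] at h1 h2 h3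
    refine ⟨?_, ?_, ?_⟩
    · exact (neg_add_eq_zero.1 h2.symm).symm
    · exact (add_neg_eq_zero.1 h3.symm).symm
    · exact sub_eq_zero.1 h1.symm
  have hAB : ∀ A B : Matrix (Fin 2) (Fin 2) ℂ, (A * B - B * A).mulVec p = 0 ∧
      Matrix.vecMul q (A * B - B * A) = 0 := by
    intro A B
    have h := two (mkA A) (mkA B)
    rw [lieAA] at h
    have h2 := congrArg (fun t : L8 => t.2.1) h
    have h3 := congrArg (fun t : L8 => t.2.2) h
    simp only [add2, add3, br2, br3, smul2, smul3, (hA _).1, (hA _).2.1, a1, a2, a3,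
      Matrix.mulVec_zero, Matrix.zero_vecMul, Matrix.mulVec_mulVec,
      Matrix.vecMul_vecMul, zero_sub, sub_zero] at h2 h3
    constructor
    · apply half
      rw [h2, Matrix.sub_mulVec]
      abel
    · apply half
      rw [h3, Matrix.vecMul_sub]
      abel
  have hE : (!![1, 0; 0, 0] : Matrix (Fin 2) (Fin 2) ℂ) * !![0, 1; 0, 0] -
      !![0, 1; 0, 0] * !![1, 0; 0, 0] = !![0, 1; 0, 0] := by
    ext i j; fin_cases i <;> fin_cases j <;> simp
  have hF : (!![0, 0; 1, 0] : Matrix (Fin 2) (Fin 2) ℂ) * !![1, 0; 0, 0] -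
      !![1, 0; 0, 0] * !![0, 0; 1, 0] = !![0, 0; 1, 0] := by
    ext i j; fin_cases i <;> fin_cases j <;> simp
  have hp0 : p = 0 := by
    have h1 := congrFun (hAB !![1, 0; 0, 0] !![0, 1; 0, 0]).1 0
    have h2 := congrFun (hAB !![0, 0; 1, 0] !![1, 0; 0, 0]).1 1
    rw [hE] at h1
    rw [hF] at h2
    simp [Matrix.mulVec, dotProduct, Fin.sum_univ_two] at h1 h2
    funext i
    fin_cases i
    · exact h2
    · exact h1
  have hq0 : q = 0 := by
    have h1 := congrFun (hAB !![1, 0; 0, 0] !![0, 1; 0, 0]).2 1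
    have h2 := congrFun (hAB !![0, 0; 1, 0] !![1, 0; 0, 0]).2 0
    rw [hE] at h1
    rw [hF] at h2
    simp [Matrix.vecMul, dotProduct, Fin.sum_univ_two] at h1 h2
    funext i
    fin_cases i
    · exact h1
    · exact h2
  obtain ⟨δ, hδ⟩ : ∃ δ : ℂ, (φ (mkA 1)).1 = δ • (1 : Matrix (Fin 2) (Fin 2) ℂ) := by
    have h1 := (hA !![1, 0; 0, 0]).2.2
    have h2 := (hA !![0, 1; 0, 0]).2.2
    have e01 := congrFun (congrFun h1 0) 1
    have e10 := congrFun (congrFun h1 1) 0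
    have f01 := congrFun (congrFun h2 0) 1
    simp [Matrix.mul_apply, Fin.sum_univ_two] at e01 e10 f01
    refine ⟨(φ (mkA 1)).1 0 0, ?_⟩
    ext i j
    fin_cases i <;> fin_cases j
    · simp
    · simp [← e01]
    · simp [e10]
    · simp [f01]
  have hb : ∀ v : Fin 2 → ℂ, φ (mkV v) = δ • mkV v := by
    intro v
    have h := two (mkA 1) (mkV v)
    rw [lieAV, Matrix.one_mulVec] at h
    have h1 := congrArg (fun t : L8 => t.1) h
    have h2 := congrArg (fun t : L8 => t.2.1) h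
    have h3 := congrArg (fun t : L8 => t.2.2) h
    simp only [add1, add2, add3, br1, br2, br3, smul1, smul2, smul3, ← hp, ← hq, hp0, hq0, hδ,
      a1, a2, a3, b1, b2, b3, Matrix.mulVec_zero, Matrix.one_mulVec, Matrix.zero_vecMul,
      Matrix.vecMul_one, Matrix.zero_mulVec, Matrix.vecMul_zero, Matrix.smul_mulVec, mul_zero,
      zero_mul, one_mul, mul_one, sub_self, add_zero, zero_sub, sub_zero, zero_add] at h1 h2 h3
    refine L8.ext' ?_ ?_ ?_
    · rw [smul1, b1, smul_zero]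
      exact (smul_eq_zero.1 h1).resolve_left two_ne_zero
    · rw [smul2, b2]
      have h5 : (φ (mkV v)).2.1 = (2 : ℂ) • (φ (mkV v)).2.1 - (φ (mkV v)).2.1 := by
        rw [two_smul]; abel
      rw [h5, h2]; abel
    · rw [smul3, b3, smul_zero]
      have h5 : (3 : ℂ) • (φ (mkV v)).2.2 = 0 := by
        have : (3 : ℂ) • (φ (mkV v)).2.2 = (2 : ℂ) • (φ (mkV v)).2.2 + (φ (mkV v)).2.2 := by
          rw [show (3 : ℂ) = 2 + 1 by norm_num, add_smul, one_smul]
        rw [this, h3]; abel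
      exact (smul_eq_zero.1 h5).resolve_left (by norm_num)
  have ha : ∀ A : Matrix (Fin 2) (Fin 2) ℂ, φ (mkA A) = δ • mkA A := by
    intro A
    have hv : ∀ v : Fin 2 → ℂ, (φ (mkA A)).1.mulVec v = (δ • A).mulVec v := by
      intro v
      have h := two (mkA A) (mkV v)
      rw [lieAV, hb, hb] at h
      have h2 := congrArg (fun t : L8 => t.2.1) h
      simp only [add2, br2, smul2, smul1, a1, a2, b1, b2, Matrix.mulVec_zero, Matrix.zero_mulVec,
        smul_zero, sub_zero, Matrix.mulVec_smul] at h2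
      rw [Matrix.smul_mulVec]
      have h5 : (φ (mkA A)).1.mulVec v = (2 : ℂ) • δ • A.mulVec v - δ • A.mulVec v := by
        rw [h2]; abel
      rw [h5, two_smul]; abel
    refine L8.ext' ?_ ?_ ?_
    · rw [smul1, a1]
      exact Matrix.mulVec_injective (funext hv)
    · rw [(hA A).1, hp0, Matrix.mulVec_zero, smul2, a2, smul_zero]
    · rw [(hA A).2.1, hq0, Matrix.zero_vecMul, smul3, a3, smul_zero]
  have hc : ∀ w : Fin 2 → ℂ, φ (mkW w) = δ • mkW w := by
    intro w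
    have h := two (mkW w) (mkA 1)
    rw [lieWA, Matrix.vecMul_one, ha] at h
    have h1 := congrArg (fun t : L8 => t.1) h
    have h2 := congrArg (fun t : L8 => t.2.1) h
    have h3 := congrArg (fun t : L8 => t.2.2) h
    simp only [add1, add2, add3, br1, br2, br3, smul1, smul2, smul3,
      a1, a2, a3, c1, c2, c3, Matrix.mulVec_zero, Matrix.one_mulVec, Matrix.zero_vecMul,
      Matrix.vecMul_one, Matrix.zero_mulVec, Matrix.vecMul_zero, Matrix.vecMul_smul, mul_zero,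
      zero_mul, one_mul, mul_one, sub_self, add_zero, zero_sub, sub_zero, zero_add, smul_zero]
      at h1 h2 h3
    refine L8.ext' ?_ ?_ ?_
    · rw [smul1, c1, smul_zero]
      exact (smul_eq_zero.1 h1).resolve_left two_ne_zero
    · rw [smul2, c2, smul_zero]
      have h5 : (3 : ℂ) • (φ (mkW w)).2.1 = 0 := by
        have : (3 : ℂ) • (φ (mkW w)).2.1 = (2 : ℂ) • (φ (mkW w)).2.1 + (φ (mkW w)).2.1 := by
          rw [show (3 : ℂ) = 2 + 1 by norm_num, add_smul, one_smul]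
        rw [this, h2]; abel
      exact (smul_eq_zero.1 h5).resolve_left (by norm_num)
    · rw [smul3, c3]
      have h5 : (φ (mkW w)).2.2 = (2 : ℂ) • (φ (mkW w)).2.2 - (φ (mkW w)).2.2 := by
        rw [two_smul]; abel
      rw [h5, h3]; abel
  refine ⟨δ, fun x => ?_⟩
  conv_lhs => rw [eq_add x]
  conv_rhs => rw [eq_add x]
  rw [map_add, map_add, ha, hb, hc, smul_add, smul_add]

/-- a Lie algebra of dimension at least two all of whose `1/2`-derivations are trivial has no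
non-trivial transposed Poisson structure -/
theorem tp_trivial (μ : L8 →ₗ[ℂ] L8 →ₗ[ℂ] L8) (hμ : IsTransposedPoisson μ) : μ = 0 := by
  have hs : ∀ z : L8, IsScalar (μ z) := by
    intro z
    apply half_trivial
    intro x y
    rw [← hμ.compat, smul_smul]
    norm_num
  choose lam hlam using hs
  have hcomm : ∀ x z : L8, lam z • x = lam x • z := by
    intro x z
    rw [← hlam, ← hlam, hμ.comm]
  have hz : ∀ z : L8, z.2.1 = 0 → lam z = 0 := by
    intro z hz
    have h := congrArg (fun t : L8 => t.2.1 0) (hcomm (mkV ![1, 0]) z)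
    simp only [smul2, b2, hz] at h
    simpa using h
  have hz' : ∀ z : L8, lam z = 0 := by
    intro z
    have h := congrArg (fun t : L8 => t.1 0 0) (hcomm (mkA 1) z)
    simp only [smul1, a1, hz (mkA 1) (a2 1), zero_smul, zero1] at h
    simpa using h
  ext z x
  rw [hlam, hz', zero_smul]
  rfl

/-- the linear form `tr A` on `E9` -/
noncomputable def trE : E9 →ₗ[ℂ] ℂ :=
  (Matrix.traceLinearMap (Fin 2) ℂ ℂ).comp
    ((LinearMap.fst ℂ (Matrix (Fin 2) (Fin 2) ℂ) ((Fin 2 → ℂ) × (Fin 2 → ℂ))).comp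
      (LinearMap.fst ℂ L8 ℂ))

theorem trE_apply (x : E9) : trE x = Matrix.trace x.1.1 := rfl

theorem trE_lie (x y : E9) : trE ⁅x, y⁆ = 0 := by
  rw [trE_apply, ebr1, br1, Matrix.trace_sub, Matrix.trace_mul_comm, sub_self]

/-- the central element -/
noncomputable def cE : E9 := ((0 : L8), (1 : ℂ))

theorem trE_cE : trE cE = 0 := by
  rw [trE_apply]
  change Matrix.trace (0 : Matrix (Fin 2) (Fin 2) ℂ) = 0
  simp

theorem lie_cE (x : E9) : ⁅x, cE⁆ = 0 := by
  refine E9.ext' ?_ ?_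
  · rw [ebr1]
    change ⁅x.1, (0 : L8)⁆ = 0
    simp
  · rw [ebr2]
    change om x.1 (0 : L8) = 0
    simp

theorem cE_lie (x : E9) : ⁅cE, x⁆ = 0 := by
  rw [← lie_skew, lie_cE, neg_zero]

theorem cE_ne : cE ≠ 0 := by
  intro h
  have := congrArg (fun t : E9 => t.2) h
  exact one_ne_zero (α := ℂ) this

/-- the element `1` of `gl₂` -/
noncomputable def dE : E9 := (((1 : Matrix (Fin 2) (Fin 2) ℂ), 0, 0), (0 : ℂ))

theorem trE_dE : trE dE = 2 := by
  rw [trE_apply]
  change Matrix.trace (1 : Matrix (Fin 2) (Fin 2) ℂ) = 2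
  simp

end Pool.Agent.R691.HalfDer
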