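import Mathlib

/-!
# Heights, characteristics and transitivity notions for abelian groups
-/

set_option autoImplicit false

namespace Pool.Agent.R691.Heights

/-- The `p`-height `|x|_p`: the largest `n` such that `x ∈ p ^ n G`, and `∞` if there is none. -/
noncomputable def pHeight {G : Type*} [AddCommGroup G] (p : ℕ) (x : G) : ℕ∞ :=
  ⨆ (n : ℕ) (_ : ∃ y : G, p ^ n • y = x), (n : ℕ∞)

/-- The characteristic `χ_G(x)`: the family of all `p`-heights of `x`, `p` a prime. -/
noncomputable def chi {G : Type*} [AddCommGroup G] (x : G) : Nat.Primes → ℕ∞ :=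
  fun p => pHeight (p : ℕ) x

/-- `G` is transitive: `χ_G(x) = χ_G(y)` implies that some automorphism maps `x` to `y`. -/
def IsTransitive (G : Type*) [AddCommGroup G] : Prop :=
  ∀ x y : G, chi x = chi y → ∃ η : G ≃+ G, η x = y

/-- `G` is fully transitive: `χ_G(x) ≤ χ_G(y)` implies that some endomorphism maps `x` to `y`. -/
def IsFullyTransitive (G : Type*) [AddCommGroup G] : Prop :=
  ∀ x y : G, chi x ≤ chi y → ∃ φ : G →+ G, φ x = y

/-- `G` is Krylov transitive: `χ_G(x) = χ_G(y)` implies that some endomorphism maps `x` to `y`. -/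
def IsKrylovTransitive (G : Type*) [AddCommGroup G] : Prop :=
  ∀ x y : G, chi x = chi y → ∃ φ : G →+ G, φ x = y

/-- `G` is weakly transitive: if some endomorphism maps `x` to `y` and some endomorphism maps
`y` to `x`, then some automorphism maps `x` to `y`. -/
def IsWeaklyTransitive (G : Type*) [AddCommGroup G] : Prop :=
  ∀ x y : G, (∃ φ : G →+ G, φ x = y) → (∃ ψ : G →+ G, ψ y = x) → ∃ η : G ≃+ G, η x = y

theorem le_pHeight_iff {G : Type*} [AddCommGroup G] (p : ℕ) (x : G) (k : ℕ) :
    (k : ℕ∞) ≤ pHeight p x ↔ ∃ y : G, p ^ k • y = x := by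
  constructor
  · intro h
    by_contra hno
    have hlt : ∀ n : ℕ, (∃ y : G, p ^ n • y = x) → n < k := by
      intro n ⟨y, hy⟩
      by_contra hkn
      push Not at hkn
      apply hno
      refine ⟨p ^ (n - k) • y, ?_⟩
      rw [smul_smul, ← pow_add, Nat.add_sub_cancel' hkn, hy]
    have hk : 1 ≤ k := by
      have := hlt 0 ⟨x, by simp⟩
      omega
    have h2 : pHeight p x ≤ ((k - 1 : ℕ) : ℕ∞) := by
      unfold pHeight
      refine iSup₂_le fun n hn => ?_
      have := hlt n hn
      exact_mod_cast (by omega : n ≤ k - 1)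
    have h3 := h.trans h2
    have h4 : k ≤ k - 1 := by exact_mod_cast h3
    omega
  · intro h
    unfold pHeight
    exact le_iSup₂_of_le k h le_rfl

theorem chi_le_iff {G H : Type*} [AddCommGroup G] [AddCommGroup H] (x : G) (y : H) :
    chi x ≤ chi y ↔ ∀ p : ℕ, p.Prime → ∀ k : ℕ,
      (∃ z : G, p ^ k • z = x) → ∃ z : H, p ^ k • z = y := by
  constructor
  · intro h p hp k hk
    rw [← le_pHeight_iff] at hk ⊢
    exact hk.trans (h ⟨p, hp⟩)
  · intro h p
    refine ENat.forall_natCast_le_iff_le.1 fun k hk => ?_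
    exact (le_pHeight_iff _ _ _).2 (h p p.2 k ((le_pHeight_iff _ _ _).1 hk))

theorem chi_eq_iff {G H : Type*} [AddCommGroup G] [AddCommGroup H] (x : G) (y : H) :
    chi x = chi y ↔ ∀ p : ℕ, p.Prime → ∀ k : ℕ,
      ((∃ z : G, p ^ k • z = x) ↔ ∃ z : H, p ^ k • z = y) := by
  rw [le_antisymm_iff, chi_le_iff, chi_le_iff]
  constructor
  · rintro ⟨h1, h2⟩ p hp k
    exact ⟨h1 p hp k, h2 p hp k⟩
  · intro h
    exact ⟨fun p hp k => (h p hp k).1, fun p hp k => (h p hp k).2⟩

end Pool.Agent.R691.Heights
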