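import Mathlib
import Pool.Agent.R691.Heights

/-!
# A rank one module over `ℤ[X]` whose endomorphism ring is `ℤ[X]`
-/

set_option autoImplicit false

open Polynomial

namespace Pool.Agent.R691.SqGroup

open Pool.Agent.R691.Heights

/-- the inclusion `ℤ[X] → ℚ[X]` -/
noncomputable def io : ℤ[X] →+* ℚ[X] := mapRingHom (Int.castRingHom ℚ)

theorem io_inj : Function.Injective io :=
  map_injective _ (RingHom.injective_int (Int.castRingHom ℚ))

/-- the group generated by `ℤ[X]` and all `e x_p / p` with `e ∈ ℤ[X]`, `p` a prime -/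
noncomputable def GG (x : ℕ → ℤ[X]) : AddSubgroup ℚ[X] :=
  AddSubgroup.closure ({f | ∃ e : ℤ[X], f = io e} ∪
    {f | ∃ (p : ℕ) (_ : p.Prime) (e : ℤ[X]), (p : ℚ[X]) * f = io (x p * e)})

variable {x : ℕ → ℤ[X]}

theorem io_mem (e : ℤ[X]) : io e ∈ GG x :=
  AddSubgroup.subset_closure (Or.inl ⟨e, rfl⟩)

theorem gen_mem {p : ℕ} (hp : p.Prime) (e : ℤ[X]) {f : ℚ[X]} (h : (p : ℚ[X]) * f = io (x p * e)) :
    f ∈ GG x :=
  AddSubgroup.subset_closure (Or.inr ⟨p, hp, e, h⟩)

theorem natCast_ne {p : ℕ} (hp : p.Prime) : (p : ℚ[X]) ≠ 0 := by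
  exact_mod_cast hp.ne_zero

theorem exists_gen {p : ℕ} (hp : p.Prime) (e : ℤ[X]) : ∃ f ∈ GG x, (p : ℚ[X]) * f = io (x p * e) := by
  have h : (p : ℚ[X]) * (C ((p : ℚ)⁻¹) * io (x p * e)) = io (x p * e) := by
    rw [← mul_assoc, ← C_eq_natCast, ← C_mul, mul_inv_cancel₀ (by exact_mod_cast hp.ne_zero), C_1,
      one_mul]
  exact ⟨_, gen_mem hp e h, h⟩

/-- `GG x` is a `ℤ[X]`-module -/
theorem smul_mem (c : ℤ[X]) {f : ℚ[X]} (hf : f ∈ GG x) : io c * f ∈ GG x := by
  unfold GG at hf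
  induction hf using AddSubgroup.closure_induction with
  | mem f hf =>
    rcases hf with ⟨e, rfl⟩ | ⟨p, hp, e, h⟩
    · rw [← map_mul]; exact io_mem _
    · refine gen_mem hp (c * e) ?_
      rw [mul_left_comm, h, ← map_mul]
      congr 1
      ring
  | zero => rw [mul_zero]; exact zero_mem _
  | add f g _ _ hf hg => rw [mul_add]; exact add_mem hf hg
  | neg f _ hf => rw [mul_neg]; exact neg_mem hf

theorem local_form {p : ℕ} (hp : p.Prime) {f : ℚ[X]} (hf : f ∈ GG x) :
    ∃ M : ℤ, ¬ (p : ℤ) ∣ M ∧ ∃ a b : ℤ[X], (M : ℚ[X]) * (p * f) = io (p * a + x p * b) := by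
  have hpi : Prime (p : ℤ) := Nat.prime_iff_prime_int.1 hp
  unfold GG at hf
  induction hf using AddSubgroup.closure_induction with
  | mem f hf =>
    rcases hf with ⟨e, rfl⟩ | ⟨q, hq, e, h⟩
    · refine ⟨1, hpi.not_dvd_one, e, 0, ?_⟩
      simp
    · by_cases hqp : q = p
      · subst hqp
        refine ⟨1, hpi.not_dvd_one, 0, e, ?_⟩
        rw [h]
        simp
      · refine ⟨q, ?_, x q * e, 0, ?_⟩
        · intro hdvd
          have : p ∣ q := by exact_mod_cast hdvd
          exact hqp ((Nat.prime_dvd_prime_iff_eq hp hq).1 this).symm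
        · have : ((q : ℤ) : ℚ[X]) * (p * f) = p * ((q : ℚ[X]) * f) := by push_cast; ring
          rw [this, h, mul_zero, add_zero, ← map_natCast io, ← map_mul]
  | zero => exact ⟨1, hpi.not_dvd_one, 0, 0, by simp⟩
  | add f g _ _ hf hg =>
    obtain ⟨M, hM, a, b, h1⟩ := hf
    obtain ⟨M', hM', a', b', h2⟩ := hg
    refine ⟨M * M', fun h => (hpi.dvd_or_dvd h).elim hM hM', (M' : ℤ[X]) * a + (M : ℤ[X]) * a',
      (M' : ℤ[X]) * b + (M : ℤ[X]) * b', ?_⟩
    simp only [map_add, map_mul, map_natCast, map_intCast] at h1 h2 ⊢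
    push_cast
    linear_combination (M' : ℚ[X]) * h1 + (M : ℚ[X]) * h2
  | neg f _ hf =>
    obtain ⟨M, hM, a, b, h1⟩ := hf
    refine ⟨M, hM, -a, -b, ?_⟩
    simp only [map_add, map_mul, map_natCast, map_neg] at h1 ⊢
    linear_combination -h1

theorem global_form {f : ℚ[X]} (hf : f ∈ GG x) :
    ∃ N : ℤ, N ≠ 0 ∧ ∃ e : ℤ[X], (N : ℚ[X]) * f = io e := by
  unfold GG at hf
  induction hf using AddSubgroup.closure_induction with
  | mem f hf =>
    rcases hf with ⟨e, rfl⟩ | ⟨q, hq, e, h⟩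
    · exact ⟨1, one_ne_zero, e, by simp⟩
    · exact ⟨q, by exact_mod_cast hq.ne_zero, x q * e, by push_cast; exact h⟩
  | zero => exact ⟨1, one_ne_zero, 0, by simp⟩
  | add f g _ _ hf hg =>
    obtain ⟨M, hM, a, h1⟩ := hf
    obtain ⟨M', hM', a', h2⟩ := hg
    refine ⟨M * M', mul_ne_zero hM hM', (M' : ℤ[X]) * a + (M : ℤ[X]) * a', ?_⟩
    simp only [map_add, map_mul, map_intCast]
    push_cast
    linear_combination (M' : ℚ[X]) * h1 + (M : ℚ[X]) * h2
  | neg f _ hf =>
    obtain ⟨M, hM, a, h1⟩ := hf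
    refine ⟨M, hM, -a, ?_⟩
    simp only [map_neg]
    linear_combination -h1

/-- reduction modulo `p` -/
noncomputable def red (p : ℕ) : ℤ[X] →+* (ZMod p)[X] := mapRingHom (Int.castRingHom (ZMod p))

theorem red_eq_zero_iff (p : ℕ) (e : ℤ[X]) : red p e = 0 ↔ (p : ℤ[X]) ∣ e := by
  have h : (p : ℤ[X]) = C (p : ℤ) := by simp
  rw [h, C_dvd_iff_dvd_coeff]
  unfold red
  rw [coe_mapRingHom, Polynomial.ext_iff]
  refine forall_congr' fun i => ?_
  rw [coeff_map, coeff_zero, eq_intCast, ZMod.intCast_zmod_eq_zero_iff_dvd]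

theorem red_surj (p : ℕ) : Function.Surjective (red p) :=
  map_surjective _ (ZMod.ringHom_surjective _)

/-- `p`-divisibility in `GG x` of an integral polynomial -/
theorem div_of_red {p : ℕ} (hp : p.Prime) {e : ℤ[X]} (h : red p (x p) ∣ red p e) :
    ∃ g ∈ GG x, (p : ℚ[X]) * g = io e := by
  obtain ⟨h', hh⟩ := h
  obtain ⟨b, rfl⟩ := red_surj p h'
  have h1 : red p (e - x p * b) = 0 := by rw [map_sub, map_mul, hh, sub_self]
  obtain ⟨a, ha⟩ := (red_eq_zero_iff p _).1 h1
  obtain ⟨f, hf, hf2⟩ := exists_gen (x := x) hp b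
  refine ⟨io a + f, add_mem (io_mem a) hf, ?_⟩
  rw [mul_add, hf2, ← map_natCast io, ← map_mul, ← map_add]
  congr 1
  rw [← ha]
  ring

theorem red_of_div {p : ℕ} (hp : p.Prime) {e : ℤ[X]} {g : ℚ[X]} (hg : g ∈ GG x)
    (h : (p : ℚ[X]) * g = io e) : red p (x p) ∣ red p e := by
  have : Fact p.Prime := ⟨hp⟩
  obtain ⟨M, hM, a, b, h1⟩ := local_form hp hg
  rw [h, ← map_intCast io, ← map_mul] at h1
  have h2 : (M : ℤ[X]) * e = p * a + x p * b := io_inj h1
  have h3 := congrArg (red p) h2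
  rw [map_mul, map_add, map_mul, map_mul, map_intCast, map_natCast, CharP.cast_eq_zero, zero_mul,
    zero_add] at h3
  have hMu : IsUnit (M : (ZMod p)[X]) := by
    have h4 : (M : ZMod p) ≠ 0 := by
      rw [Ne, ZMod.intCast_zmod_eq_zero_iff_dvd]
      exact hM
    have h5 : (M : (ZMod p)[X]) = C (M : ZMod p) := by simp
    rw [h5]
    exact isUnit_C.2 (isUnit_iff_ne_zero.2 h4)
  exact (hMu.dvd_mul_left).1 (h3 ▸ dvd_mul_right _ _)

/-- a polynomial which is divisible by `x` modulo infinitely many primes is divisible by `x` -/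
theorem dvd_of_infinite {y e : ℤ[X]} (hy : y ≠ 0) (hinf : {p : ℕ | p.Prime ∧ red p y ∣ red p e}.Infinite) :
    io y ∣ io e := by
  have hy' : io y ≠ 0 := (map_ne_zero_iff _ io_inj).2 hy
  -- clear denominators in the division with remainder
  obtain ⟨N1, hN1, hq⟩ : ∃ N : ℤ, N ≠ 0 ∧ ∃ q : ℤ[X], (N : ℚ[X]) * (io e / io y) = io q := by
    obtain ⟨b, hb, h⟩ := IsLocalization.integerNormalization_spec (nonZeroDivisors ℤ) (io e / io y)
    refine ⟨b, nonZeroDivisors.ne_zero hb,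
      IsLocalization.integerNormalization (nonZeroDivisors ℤ) (io e / io y), ?_⟩
    rw [← zsmul_eq_mul]
    exact h.symm
  obtain ⟨q, hq⟩ := hq
  have hr : (N1 : ℚ[X]) * (io e % io y) = io ((N1 : ℤ[X]) * e - y * q) := by
    have h1 := EuclideanDomain.div_add_mod (io e) (io y)
    simp only [map_sub, map_mul, map_intCast]
    linear_combination (N1 : ℚ[X]) * h1 - io y * hq
  set r : ℤ[X] := (N1 : ℤ[X]) * e - y * q with hrdef
  have hN1' : (N1 : ℚ) ≠ 0 := by exact_mod_cast hN1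
  have hdeg : r ≠ 0 → r.degree < y.degree := by
    intro hr0
    have h1 : (io r).degree = (io e % io y).degree := by
      rw [← hr, ← C_eq_intCast, degree_C_mul hN1']
    have h2 : (io r).degree = r.degree := degree_map_eq_of_injective (RingHom.injective_int _) r
    have h3 : (io y).degree = y.degree := degree_map_eq_of_injective (RingHom.injective_int _) y
    rw [← h2, h1, ← h3]
    exact EuclideanDomain.mod_lt (io e) hy'
  have hr0 : r = 0 := by
    by_contra hr0
    have hd := hdeg hr0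
    -- a good prime
    have hfin : {p : ℕ | p.Prime ∧ ((p : ℤ) ∣ y.leadingCoeff ∨ (p : ℤ) ∣ r.leadingCoeff)}.Finite := by
      have hfin1 : ∀ z : ℤ, z ≠ 0 → {p : ℕ | (p : ℤ) ∣ z}.Finite := by
        intro z hz
        refine (Set.finite_Iic z.natAbs).subset fun p hp => ?_
        exact Nat.le_of_dvd (Int.natAbs_pos.2 hz) (Int.natCast_dvd.1 hp)
      refine ((hfin1 _ (leadingCoeff_ne_zero.2 hy)).union
        (hfin1 _ (leadingCoeff_ne_zero.2 hr0))).subset ?_
      rintro p ⟨-, h | h⟩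
      · exact Or.inl h
      · exact Or.inr h
    obtain ⟨p, ⟨hp, hpd⟩, hpn⟩ := (hinf.sdiff hfin).nonempty
    have : Fact p.Prime := ⟨hp⟩
    simp only [Set.mem_ofPred_eq, not_and, not_or] at hpn
    obtain ⟨hpy, hpr⟩ := hpn hp
    have h1 : red p y ∣ red p r := by
      rw [hrdef, map_sub, map_mul, map_mul]
      exact dvd_sub (hpd.mul_left _) (dvd_mul_right _ _)
    have h2 : red p r ≠ 0 := by
      rw [Ne, red_eq_zero_iff]
      intro h
      apply hpr
      have h3 : (p : ℤ[X]) = C (p : ℤ) := by simp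
      rw [h3, C_dvd_iff_dvd_coeff] at h
      exact h _
    have h3 := degree_le_of_dvd h1 h2
    have h4 : (red p y).degree = y.degree := by
      refine degree_map_eq_of_leadingCoeff_ne_zero _ ?_
      rw [eq_intCast, Ne, ZMod.intCast_zmod_eq_zero_iff_dvd]
      exact hpy
    have h5 : (red p r).degree ≤ r.degree := degree_map_le
    rw [h4] at h3
    exact absurd (h3.trans h5) (not_le.2 hd)
  rw [hr0, map_zero] at hr
  have h1 : io e % io y = 0 := by
    rcases mul_eq_zero.1 hr with h | h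
    · exact absurd (by exact_mod_cast h) hN1
    · exact h
  exact (EuclideanDomain.mod_eq_zero).1 h1

end Pool.Agent.R691.SqGroup
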