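import Mathlib
import Pool.Agent.R691.Heights
import Pool.Agent.R691.SqGroup

/-!
# Endomorphisms and transitivity of the group `GG x`
-/

set_option autoImplicit false

open Polynomial

namespace Pool.Agent.R691.SqGroup

open Pool.Agent.R691.Heights

variable {x : ℕ → ℤ[X]}

theorem coe_nsmul' (n : ℕ) (g : GG x) : ((n • g : GG x) : ℚ[X]) = (n : ℚ[X]) * g := by
  rw [AddSubgroup.coe_nsmul, nsmul_eq_mul]

theorem coe_zsmul' (n : ℤ) (g : GG x) : ((n • g : GG x) : ℚ[X]) = (n : ℚ[X]) * g := by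
  rw [AddSubgroup.coe_zsmul, zsmul_eq_mul]

theorem intCast_ne {N : ℤ} (hN : N ≠ 0) : (N : ℚ[X]) ≠ 0 := by exact_mod_cast hN

theorem torsion_free (n : ℕ) (g : GG x) (hn : n ≠ 0) (h : n • g = 0) : g = 0 := by
  have h1 := congrArg (Subtype.val) h
  rw [coe_nsmul'] at h1
  rcases mul_eq_zero.1 h1 with h2 | h2
  · exact absurd (by exact_mod_cast h2) hn
  · exact Subtype.ext h2

/-- a common integral multiple -/
theorem common (a b : GG x) : ∃ N : ℤ, N ≠ 0 ∧ ∃ e f : ℤ[X],
    (N : ℚ[X]) * a = io e ∧ (N : ℚ[X]) * b = io f := by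
  obtain ⟨N, hN, e, he⟩ := global_form a.2
  obtain ⟨M, hM, f, hf⟩ := global_form b.2
  refine ⟨N * M, mul_ne_zero hN hM, (M : ℤ[X]) * e, (N : ℤ[X]) * f, ?_, ?_⟩
  · simp only [map_mul, map_intCast]
    push_cast
    linear_combination (M : ℚ[X]) * he
  · simp only [map_mul, map_intCast]
    push_cast
    linear_combination (N : ℚ[X]) * hf

theorem red_of_dvd {p : ℕ} (hp : p.Prime) {N : ℤ} {g : GG x} {e : ℤ[X]}
    (he : (N : ℚ[X]) * g = io e) (h : ∃ z : GG x, p • z = g) : red p (x p) ∣ red p e := by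
  obtain ⟨z, hz⟩ := h
  refine red_of_div hp (N • z).2 ?_
  rw [coe_zsmul', ← he, ← hz, coe_nsmul']
  ring

theorem dvd_of_red {p : ℕ} (hp : p.Prime) {N : ℤ} {g : GG x} {e : ℤ[X]} (hN : ¬ (p : ℤ) ∣ N)
    (he : (N : ℚ[X]) * g = io e) (h : red p (x p) ∣ red p e) : ∃ z : GG x, p • z = g := by
  obtain ⟨w, hw, hw2⟩ := div_of_red hp h
  have hcop : IsCoprime (p : ℤ) N :=
    (Prime.coprime_iff_not_dvd (Nat.prime_iff_prime_int.1 hp)).2 hN
  obtain ⟨v, u, huv⟩ := hcop
  refine ⟨u • ⟨w, hw⟩ + v • g, Subtype.ext ?_⟩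
  rw [coe_nsmul', AddSubgroup.coe_add, coe_zsmul', coe_zsmul']
  have h1 : ((v : ℚ[X]) * p + u * N) = 1 := by exact_mod_cast huv
  change (p : ℚ[X]) * ((u : ℚ[X]) * w + (v : ℚ[X]) * g) = g
  linear_combination (u : ℚ[X]) * hw2 - (u : ℚ[X]) * he + (g : ℚ[X]) * h1

theorem line (hx : ∀ e : ℤ[X], {p : ℕ | p.Prime ∧ x p = e}.Infinite) (a b : GG x) (ha : a ≠ 0)
    (hab : ∀ p : ℕ, p.Prime → (∃ z : GG x, p • z = a) → ∃ z : GG x, p • z = b) :
    ∃ c : ℚ[X], (b : ℚ[X]) = c * a := by
  obtain ⟨N, hN, e, f, he, hf⟩ := common a b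
  have he0 : e ≠ 0 := by
    rintro rfl
    rw [map_zero] at he
    rcases mul_eq_zero.1 he with h | h
    · exact intCast_ne hN h
    · exact ha (Subtype.ext h)
  have hfin : {p : ℕ | (p : ℤ) ∣ N}.Finite := by
    refine (Set.finite_Iic N.natAbs).subset fun p hp => ?_
    exact Nat.le_of_dvd (Int.natAbs_pos.2 hN) (Int.natCast_dvd.1 hp)
  have hdvd : io e ∣ io f := by
    refine dvd_of_infinite he0 (((hx e).sdiff hfin).mono ?_)
    rintro p ⟨⟨hp, hxp⟩, hpN⟩
    refine ⟨hp, ?_⟩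
    have h1 := red_of_dvd hp hf (hab p hp (dvd_of_red hp hpN he (by rw [hxp])))
    rwa [hxp] at h1
  obtain ⟨c, hc⟩ := hdvd
  refine ⟨c, mul_left_cancel₀ (intCast_ne hN) ?_⟩
  rw [hf, hc, ← he]
  ring

theorem height_finite {p : ℕ} (hp : p.Prime) (b : GG x) (h : ∀ k : ℕ, ∃ z : GG x, p ^ k • z = b) :
    b = 0 := by
  obtain ⟨N, hN, f, hf⟩ := global_form b.2
  have hpi : Prime (p : ℤ) := Nat.prime_iff_prime_int.1 hp
  have hkey : ∀ k : ℕ, (C ((p : ℤ) ^ k) : ℤ[X]) ∣ f := by
    intro k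
    obtain ⟨z, hz⟩ := h (k + 1)
    obtain ⟨M, hM, c, d, hcd⟩ := local_form hp z.2
    have h1 : (M : ℤ[X]) * f = (p : ℤ[X]) ^ k * ((N : ℤ[X]) * (p * c + x p * d)) := by
      apply io_inj
      rw [map_mul, map_mul, map_mul, map_pow, ← hcd, ← hf, ← hz, coe_nsmul']
      simp only [map_intCast, map_natCast]
      push_cast
      ring
    have h2 : (C ((p : ℤ) ^ k) : ℤ[X]) = (p : ℤ[X]) ^ k := by simp
    have h3 : (C ((p : ℤ) ^ k) : ℤ[X]) ∣ C M * f := by
      rw [h2]
      have : (C M : ℤ[X]) = (M : ℤ[X]) := by simp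
      rw [this, h1]
      exact dvd_mul_right _ _
    rw [C_dvd_iff_dvd_coeff] at h3 ⊢
    intro i
    have h4 := h3 i
    rw [coeff_C_mul] at h4
    exact hpi.pow_dvd_of_dvd_mul_left k hM h4
  have hf0 : f = 0 := by
    by_contra hf0
    have h1 := (C_dvd_iff_dvd_coeff _ _).1 (hkey f.leadingCoeff.natAbs) f.natDegree
    have h2 : f.leadingCoeff ≠ 0 := leadingCoeff_ne_zero.2 hf0
    have h3 := Int.natAbs_dvd_natAbs.2 h1
    rw [Int.natAbs_pow, Int.natAbs_natCast] at h3
    have h4 := Nat.le_of_dvd (Int.natAbs_pos.2 h2) h3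
    exact absurd h4 (not_le.2 (Nat.lt_pow_self hp.one_lt))
  rw [hf0, map_zero] at hf
  rcases mul_eq_zero.1 hf with h | h
  · exact absurd h (intCast_ne hN)
  · exact Subtype.ext h

/-- the element of `GG x` given by an integral polynomial -/
noncomputable def el (x : ℕ → ℤ[X]) (e : ℤ[X]) : GG x := ⟨io e, io_mem e⟩

theorem endo (hx : ∀ e : ℤ[X], {p : ℕ | p.Prime ∧ x p = e}.Infinite) (f : GG x →+ GG x) :
    ∃ c : ℤ[X], ∀ g : GG x, (f g : ℚ[X]) = io c * g := by
  have hline : ∀ g : GG x, g ≠ 0 → ∃ c : ℚ[X], (f g : ℚ[X]) = c * g := by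
    intro g hg
    refine line hx g (f g) hg ?_
    rintro p hp ⟨z, rfl⟩
    exact ⟨f z, by rw [map_nsmul]⟩
  set c : ℚ[X] := ((f (el x 1) : GG x) : ℚ[X]) with hc
  have h1 : ∀ e : ℤ[X], (f (el x e) : ℚ[X]) = io e * c := by
    intro e
    by_cases hdeg : e.natDegree = 0
    · obtain ⟨n, rfl⟩ : ∃ n : ℤ, e = C n := ⟨_, eq_C_of_natDegree_eq_zero hdeg⟩
      have h2 : el x (C n) = n • el x 1 := by
        apply Subtype.ext
        rw [coe_zsmul']
        simp [el]
      rw [h2, map_zsmul, coe_zsmul']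
      simp [hc]
    · by_contra hne
      set D : ℚ[X] := (f (el x e) : ℚ[X]) - io e * c with hD
      have hD0 : D ≠ 0 := sub_ne_zero.2 hne
      have hdvd : ∀ n : ℕ, (io e + (n : ℚ[X])) ∣ D := by
        intro n
        have h2 : el x (e + n) = el x e + n • el x 1 := by
          apply Subtype.ext
          rw [AddSubgroup.coe_add, coe_nsmul']
          simp [el]
        have h3 : el x (e + n) ≠ 0 := by
          intro h
          have h4 : io (e + n) = 0 := congrArg Subtype.val h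
          rw [map_eq_zero_iff _ io_inj] at h4
          have h5 : (e + (n : ℤ[X])).natDegree = e.natDegree := by
            rw [← C_eq_natCast]
            exact natDegree_add_C
          rw [h4, natDegree_zero] at h5
          exact hdeg h5.symm
        obtain ⟨c', hc'⟩ := hline _ h3
        rw [h2, map_add, map_nsmul, AddSubgroup.coe_add, coe_nsmul', AddSubgroup.coe_add,
          coe_nsmul'] at hc'
        refine ⟨c' - c, ?_⟩
        have h6 : ((el x e : GG x) : ℚ[X]) = io e := rfl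
        have h7 : ((el x 1 : GG x) : ℚ[X]) = 1 := by simp [el]
        rw [h6, h7] at hc'
        rw [hD]
        linear_combination hc'
      have hcop : ∀ m : ℕ, (∏ n ∈ Finset.range m, (io e + (n : ℚ[X]))) ∣ D := by
        intro m
        refine Finset.prod_dvd_of_coprime ?_ fun n _ => hdvd n
        intro i _ j _ hij
        have h2 : ((i : ℚ) - j) ≠ 0 := sub_ne_zero.2 (by exact_mod_cast hij)
        refine ⟨C (((i : ℚ) - j)⁻¹), -C (((i : ℚ) - j)⁻¹), ?_⟩
        have h3 : C (((i : ℚ) - j)⁻¹) * ((i : ℚ[X]) - (j : ℚ[X])) = 1 := by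
          rw [← C_eq_natCast, ← C_eq_natCast, ← C_sub, ← C_mul, inv_mul_cancel₀ h2, C_1]
        linear_combination h3
      have h2 := natDegree_le_of_dvd (hcop (D.natDegree + 1)) hD0
      have h3 : ∀ n : ℕ, (io e + (n : ℚ[X])).natDegree = e.natDegree := by
        intro n
        rw [← C_eq_natCast, natDegree_add_C]
        exact natDegree_map_eq_of_injective (RingHom.injective_int _) e
      have h4 : ∀ n : ℕ, (io e + (n : ℚ[X])) ≠ 0 := by
        intro n h
        have := h3 n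
        rw [h, natDegree_zero] at this
        exact hdeg this.symm
      rw [natDegree_prod _ _ fun n _ => h4 n] at h2
      simp only [h3, Finset.sum_const, Finset.card_range, smul_eq_mul] at h2
      have h5 : 1 ≤ e.natDegree := Nat.one_le_iff_ne_zero.2 hdeg
      nlinarith
  have h2 : ∀ g : GG x, (f g : ℚ[X]) = c * g := by
    intro g
    obtain ⟨N, hN, e, he⟩ := global_form g.2
    apply mul_left_cancel₀ (intCast_ne hN)
    have h3 : N • g = el x e := by
      apply Subtype.ext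
      rw [coe_zsmul', he]
      rfl
    have h4 : (N : ℚ[X]) * (f g : ℚ[X]) = (f (el x e) : ℚ[X]) := by
      rw [← h3, map_zsmul, coe_zsmul']
    rw [h4, h1, ← he]
    ring
  -- integrality
  have hcG : c ∈ GG x := (f (el x 1)).2
  have hc2 : c * c ∈ GG x := by
    have h3 := h2 (f (el x 1))
    rw [← hc] at h3
    rw [← h3]
    exact (f (f (el x 1))).2
  have hex : ∃ N : ℕ, 0 < N ∧ ∃ e : ℤ[X], (N : ℚ[X]) * c = io e := by
    obtain ⟨N, hN, e, he⟩ := global_form hcG
    rcases Int.natAbs_eq N with h | h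
    · refine ⟨N.natAbs, Int.natAbs_pos.2 hN, e, ?_⟩
      rw [← he]
      congr 1
      rw [h]
      simp
    · refine ⟨N.natAbs, Int.natAbs_pos.2 hN, -e, ?_⟩
      rw [map_neg, ← he, h]
      push_cast
      simp
  classical
  obtain ⟨hNpos, e, he⟩ := Nat.find_spec hex
  have hmin := fun m => Nat.find_min hex (m := m)
  set N := Nat.find hex with hNdef
  have hN1 : N = 1 := by
    by_contra hN1
    obtain ⟨p, hp, N', hN'⟩ := Nat.exists_prime_and_dvd hN1
    have hpi : Prime (p : ℤ) := Nat.prime_iff_prime_int.1 hp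
    obtain ⟨M, hM, a, b, hab⟩ := local_form hp hc2
    have hpX : Prime (C (p : ℤ) : ℤ[X]) := prime_C_iff.2 hpi
    have h3 : C M * (e * e) = (C (p : ℤ)) * ((N' : ℤ[X]) * N' * (p * a + x p * b)) := by
      apply io_inj
      apply mul_left_cancel₀ (natCast_ne hp)
      have hN'' : (N : ℚ[X]) = p * N' := by rw [hN']; push_cast; ring
      simp only [map_mul, ← hab, ← he, hN'', map_natCast, eq_intCast, map_intCast]
      push_cast
      ring
    have h4 : (C (p : ℤ) : ℤ[X]) ∣ e := by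
      have h5 : (C (p : ℤ) : ℤ[X]) ∣ C M * (e * e) := h3 ▸ dvd_mul_right _ _
      rcases hpX.dvd_or_dvd h5 with h6 | h6
      · refine absurd ?_ hM
        have h7 := (C_dvd_iff_dvd_coeff _ _).1 h6 0
        rwa [coeff_C_zero] at h7
      · exact (hpX.dvd_or_dvd h6).elim id id
    obtain ⟨e', he'⟩ := h4
    have hN'pos : 0 < N' := by
      rcases Nat.eq_zero_or_pos N' with h | h
      · rw [h, mul_zero] at hN'; omega
      · exact h
    refine hmin N' ?_ ⟨hN'pos, e', ?_⟩
    · rw [hN']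
      have := hp.two_le
      nlinarith
    · apply mul_left_cancel₀ (natCast_ne hp)
      have hN'' : (N : ℚ[X]) = p * N' := by rw [hN']; push_cast; ring
      rw [← mul_assoc, ← hN'', he, he', map_mul]
      simp
  rw [hN1, Nat.cast_one, one_mul] at he
  exact ⟨e, fun g => by rw [h2 g, he]⟩

theorem transitive_pm (hx : ∀ e : ℤ[X], {p : ℕ | p.Prime ∧ x p = e}.Infinite) (a b : GG x)
    (hab : chi a = chi b) : b = a ∨ b = -a := by
  rw [chi_eq_iff] at hab
  have hab1 : ∀ p : ℕ, p.Prime → ((∃ z : GG x, p • z = a) ↔ ∃ z : GG x, p • z = b) := by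
    intro p hp
    have := hab p hp 1
    simpa using this
  by_cases ha : a = 0
  · left
    rw [ha]
    refine height_finite Nat.prime_two b fun k => (hab 2 Nat.prime_two k).1 ⟨0, ?_⟩
    rw [ha, smul_zero]
  by_cases hb : b = 0
  · left
    rw [hb]
    symm
    refine height_finite Nat.prime_two a fun k => (hab 2 Nat.prime_two k).2 ⟨0, ?_⟩
    rw [hb, smul_zero]
  have ha' : (a : ℚ[X]) ≠ 0 := fun h => ha (Subtype.ext h)
  obtain ⟨c, hc⟩ := line hx a b ha fun p hp => (hab1 p hp).1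
  obtain ⟨d, hd⟩ := line hx b a hb fun p hp => (hab1 p hp).2
  have hdc : d * c = 1 := by
    apply mul_right_cancel₀ ha'
    rw [mul_assoc, ← hc, ← hd, one_mul]
  have hcu : IsUnit c := IsUnit.of_mul_eq_one_right _ hdc
  obtain ⟨r, hr, hrc⟩ := isUnit_iff.1 hcu
  have hr0 : r ≠ 0 := hr.ne_zero
  -- `n b = m a`
  have hnm : (r.den : ℤ) • b = r.num • a := by
    apply Subtype.ext
    rw [coe_zsmul', coe_zsmul', hc, ← hrc, ← mul_assoc]
    congr 1
    rw [← C_eq_intCast, ← C_mul, ← C_eq_intCast]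
    congr 1
    have := Rat.mul_den_eq_num r
    push_cast
    linarith
  -- helper: heights
  have hhelp : ∀ (p : ℕ), p.Prime → ∀ (m n : ℤ) (a b : GG x), a ≠ 0 →
      (∀ k : ℕ, (∃ z : GG x, p ^ k • z = a) ↔ ∃ z : GG x, p ^ k • z = b) →
      n • b = m • a → (p : ℤ) ∣ m → ¬ (p : ℤ) ∣ n → False := by
    intro p hp m n a b ha hk hnm hm hn
    have hex : ∃ k : ℕ, ¬ ∃ z : GG x, p ^ k • z = a := by
      by_contra hcon
      push Not at hcon
      exact ha (height_finite hp a fun k => hcon k)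
    classical
    have hk1 := Nat.find_spec hex
    have hk2 := fun m => Nat.find_min hex (m := m)
    set k := Nat.find hex
    have hk0 : k ≠ 0 := by
      intro h0
      rw [h0] at hk1
      exact hk1 ⟨a, by simp⟩
    obtain ⟨l, hl⟩ := Nat.exists_eq_succ_of_ne_zero hk0
    have h1 : ∃ z : GG x, p ^ l • z = a := by
      by_contra hcon
      exact hk2 l (by omega) hcon
    obtain ⟨z, hz⟩ := h1
    obtain ⟨w, hw⟩ := (hk l).1 ⟨z, hz⟩
    obtain ⟨m', rfl⟩ := hm
    have h2 : n • w = ((p : ℤ) * m') • z := by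
      have h3 : (p ^ l : ℕ) • (n • w - ((p : ℤ) * m') • z) = 0 := by
        rw [smul_sub, smul_comm, hw, smul_comm (p ^ l : ℕ) ((p : ℤ) * m') z, hz, hnm, sub_self]
      exact sub_eq_zero.1 (torsion_free _ _ (pow_ne_zero _ hp.ne_zero) h3)
    have hcop : IsCoprime (p : ℤ) n :=
      (Prime.coprime_iff_not_dvd (Nat.prime_iff_prime_int.1 hp)).2 hn
    obtain ⟨v, u, huv⟩ := hcop
    have h4 : (p : ℤ) • (v • w + (u * m') • z) = w := by
      calc (p : ℤ) • (v • w + (u * m') • z) = (v * p) • w + u • (((p : ℤ) * m') • z) := by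
            rw [smul_add, smul_smul, smul_smul, smul_smul]
            congr 2 <;> ring
        _ = (v * p + u * n) • w := by rw [← h2, smul_smul, add_smul]
        _ = w := by rw [huv, one_smul]
    apply hk1
    rw [hk k]
    refine ⟨v • w + (u * m') • z, ?_⟩
    rw [hl, pow_succ, mul_smul]
    have h5 : p • (v • w + (u * m') • z) = w := by
      rw [← natCast_zsmul]
      exact h4
    rw [h5, hw]
  have hcopr : ∀ p : ℕ, p.Prime → (p : ℤ) ∣ r.num → ¬ (p : ℤ) ∣ (r.den : ℤ) := by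
    intro p hp h1 h2
    have h3 := r.reduced
    have h4 : p ∣ r.num.natAbs := Int.natCast_dvd.1 h1
    have h5 : p ∣ r.den := by exact_mod_cast h2
    exact hp.one_lt.ne' (Nat.dvd_one.1 (h3 ▸ Nat.dvd_gcd h4 h5))
  have hnum : r.num.natAbs = 1 := by
    by_contra h
    obtain ⟨p, hp, hpd⟩ := Nat.exists_prime_and_dvd h
    have hpd' : (p : ℤ) ∣ r.num := Int.natCast_dvd.2 hpd
    exact hhelp p hp r.num r.den a b ha (hab p hp) hnm hpd' (hcopr p hp hpd')
  have hden : r.den = 1 := by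
    by_contra h
    obtain ⟨p, hp, hpd⟩ := Nat.exists_prime_and_dvd h
    have hpd' : (p : ℤ) ∣ (r.den : ℤ) := by exact_mod_cast hpd
    exact hhelp p hp r.den r.num b a hb (fun k => (hab p hp k).symm) hnm.symm hpd'
      (fun h1 => hcopr p hp h1 hpd')
  rw [hden] at hnm
  rcases Int.natAbs_eq r.num with h | h
  · left
    rw [h, hnum] at hnm
    simpa using hnm
  · right
    rw [h, hnum] at hnm
    simpa using hnm

end Pool.Agent.R691.SqGroup
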